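import Pool.Agent.Y121.AHS.Defs

/-!
# Conjugates of Hodge classes with respect to one comparison isomorphism: definitions
-/

open CategoryTheory AlgebraicGeometry

universe u

namespace Pool.Agent.Q60.CJ

open Pool.Agent.H914 Pool.Agent.H914.VarClass Pool.Agent.H914.VarClass.Obj
  Pool.Agent.H914.WeilCohomology
open Pool.Agent.Y121.AHS

variable {k : Type u} [Field k] {𝒱 : VarClass k} {ops : CycleOps 𝒱}

section Conj

variable {T : HodgeTheory ops}

/-- Every Hodge class on `X` is mapped by the comparison isomorphism with index `a` (corrected by
the effect on the Tate twist) to a Hodge class of the conjugate theory. -/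
def Preserved (D : Conjugates T) (a : D.J) (X : 𝒱.Obj) : Prop :=
  ∀ j c, IsHodge T X j c → ∃ c', IsHodge (D.T' (D.t a)) X j c' ∧
    (D.cmp a).Maps j c (emL _ _ c')

/-- Every Hodge class on `X` is mapped by the comparison isomorphism with index `a` (corrected by
the effect on the Tate twist) to a linear combination with coefficients in `F` of Hodge classes of
the conjugate theory. -/
def PreservedWith (D : Conjugates T) (a : D.J) (F : Set (D.L a)) (X : 𝒱.Obj) : Prop :=
  ∀ j, PreservedOver D a F X j

end Conj

/-- The field `F` is a number field of degree at most `N`: it consists of the linear combinations of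
`N` elements with rational coefficients. -/
def DegreeAtMost {L : Type} [Field L] (F : Subfield L) (N : ℕ) : Prop :=
  ∃ e : Fin N → L, ∀ x, x ∈ F ↔ ∃ q : Fin N → ℚ, x = ∑ i, (q i : L) * e i

end Pool.Agent.Q60.CJ
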