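import Pool.Agent.Q60.CJ.Full
import Pool.Agent.Y121.AH.Abs

/-!
# Comparison isomorphisms after extension of the coefficients
-/

open CategoryTheory AlgebraicGeometry TensorProduct

set_option linter.unusedSectionVars false

universe u v w

namespace Pool.Agent.Q60.CJ

open Module
open Pool.Agent.H914 Pool.Agent.H914.VarClass Pool.Agent.H914.VarClass.Obj
  Pool.Agent.H914.WeilCohomology
open Pool.Agent.Y133.Half Pool.Agent.Y121.AH
open Pool.Agent.Q60.MT

variable {k : Type u} [Field k] {𝒱 : VarClass k} {ops : CycleOps 𝒱}

section

variable (W : WeilCohomology.{u, 0} ops) (L : Type) [Field L] [Algebra W.K L]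

/-- The map to the cohomology with extended coefficients. -/
noncomputable def emR (X : 𝒱.Obj) : W.H X →+* (baseW W L).H X where
  toFun := em W L
  map_one' := rfl
  map_zero' := em_zero
  map_add' := em_add
  map_mul' := em_mul

lemma emR_ext (X : 𝒱.Obj) : IsExtension W.K (baseW W L).K (emR W L X) := by
  constructor
  · intro ι c hc
    exact Module.Flat.linearIndependent_one_tmul (R := W.K) (S := L) hc
  · rw [eq_top_iff]
    intro x _
    refine tmul_ind (p := fun x => x ∈ Submodule.span (baseW W L).K (Set.range (emR W L X)))
      (Submodule.zero_mem _) (fun a b ha hb => Submodule.add_mem _ ha hb) ?_ x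
    intro l y
    rw [tmul_eq]
    exact Submodule.smul_mem _ _ (Submodule.subset_span ⟨y, rfl⟩)

/-- The extension of the coefficients as a comparison isomorphism. -/
noncomputable def artE : Artin W (baseW W L) where
  f := emR W L
  iso X := ⟨fun _ _ hc => em_gr hc, emR_ext W L X⟩
  nat _ _ g c := (em_map g c).symm

end

section

variable {W W' : WeilCohomology.{u, 0} ops} {L : Type} [Field L] [Algebra W.K L] [Algebra W'.K L]

/-- A comparison isomorphism after extension of the coefficients. -/
noncomputable def artC (C : Comparison (baseW W L) (baseW W' L)) : Artin W (baseW W' L) where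
  f X := (C.e X).toRingHom.comp (emR W L X)
  iso X := by
    refine ⟨fun i c hc => C.gr.2 (em_gr hc), fun ι c hc => ?_, ?_⟩
    · have h1 := (emR_ext W L X).1 ι c hc
      rw [linearIndependent_iff'] at h1 ⊢
      intro s g hg i hi
      have h2 := h1 s (fun i => C.s.symm (g i)) (by
        apply (C.e X).injective
        rw [map_sum, map_zero, ← hg]
        refine Finset.sum_congr rfl fun j _ => ?_
        have h3 := C.semi X (C.s.symm (g j)) (emR W L X (c j))
        rw [RingEquiv.apply_symm_apply] at h3
        exact h3) i hi
      exact (map_eq_zero_iff C.s.symm C.s.symm.injective).1 h2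
    · rw [eq_top_iff]
      rintro x -
      obtain ⟨y, rfl⟩ := (C.e X).surjective x
      have h1 : y ∈ Submodule.span (baseW W L).K (Set.range (emR W L X)) := by
        rw [(emR_ext W L X).2]
        exact Submodule.mem_top
      induction h1 using Submodule.span_induction with
      | mem y hy =>
        obtain ⟨z, rfl⟩ := hy
        exact Submodule.subset_span ⟨z, rfl⟩
      | zero => rw [map_zero]; exact Submodule.zero_mem _
      | add a b _ _ ha hb => rw [map_add]; exact Submodule.add_mem _ ha hb
      | smul l a _ ha => rw [C.semi]; exact Submodule.smul_mem _ _ ha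
  nat X Y g c := by
    change C.e X (em W L (W.map g c)) = (baseW W' L).map g (C.e Y (em W L c))
    rw [← em_map, C.nat]

end

end Pool.Agent.Q60.CJ
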