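import Pool.Agent.Q60.CJ.Gen
import Pool.Agent.Q60.CJ.Cmp
import Pool.Agent.Q60.CJ.PDefs
import Pool.Agent.Q60.PB.HC

/-!
# Conjugates of Hodge classes with respect to one comparison isomorphism
-/

open CategoryTheory AlgebraicGeometry TensorProduct Filter Topology

set_option linter.unusedSectionVars false

universe u

namespace Pool.Agent.Q60.CJ

open Module
open Pool.Agent.H914 Pool.Agent.H914.VarClass Pool.Agent.H914.VarClass.Obj
  Pool.Agent.H914.WeilCohomology
open Pool.Agent.Y121 Pool.Agent.Y121.AHS Pool.Agent.Y133.Half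
open Pool.Agent.Q60.FI (Polarisable TotallyRealCentre)
open Pool.Agent.Q60.MT (Artin hSpan)

variable {k : Type u} [Field k] {𝒱 : VarClass k} {ops : CycleOps 𝒱}

section one

variable {T : AHS.HodgeTheory ops} (D : AHS.Conjugates T) (a : D.J) {X : 𝒱.Obj}

/-- One comparison isomorphism as a family of comparison isomorphisms. -/
noncomputable def oneD : Full.Conjugates T where
  ι := PUnit
  T' _ := D.T' (D.t a)
  J _ := PUnit
  L _ _ := D.L a
  field _ _ := D.field a
  alg _ _ := D.alg a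
  alg' _ _ := D.alg' a
  emb _ _ := D.emb a
  cmp _ _ := D.cmp a

lemma isAbs_iff {j : ℕ} {c : T.W.H X} : Full.IsAbsHodge (oneD D a) X j c ↔ IsHodge T X j c ∧
    ∃ c', IsHodge (D.T' (D.t a)) X j c' ∧ (D.cmp a).Maps j c (emL _ _ c') := by
  constructor
  · rintro ⟨h1, h2⟩
    obtain ⟨c', h3, h4⟩ := h2 PUnit.unit
    exact ⟨h1, c', h3, h4 PUnit.unit⟩
  · rintro ⟨h1, c', h3, h4⟩
    exact ⟨h1, fun _ => ⟨c', h3, fun _ => h4⟩⟩

lemma preserved_iff : Preserved D a X ↔
    ∀ j c, IsHodge T X j c → Full.IsAbsHodge (oneD D a) X j c := by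
  refine forall_congr' fun j => forall_congr' fun c => forall_congr' fun hc => ?_
  rw [isAbs_iff]
  exact ⟨fun h => ⟨hc, h⟩, fun h => h.2⟩

/-- **The power `X ^ (b ^ 3)`, or `X ^ ((2 b) ^ (3 b ^ 2))`, decides.** -/
theorem preserved_power (hp : Polarisable T X) {b N : ℕ} (hb : finrank T.W.K (T.W.H X) = b)
    (hN : N = (2 * b) ^ (3 * b ^ 2) ∨ N = b ^ 3 ∧ TotallyRealCentre T X)
    (h : Preserved D a (pw X (N - 1))) (n : ℕ) : Preserved D a (pw X (n - 1)) := by
  rw [preserved_iff] at h ⊢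
  exact (PB.abs_powers T (oneD D a) X hp hb hN).1 h n

end one

section span

variable {T : AHS.HodgeTheory ops} (D : AHS.Conjugates T) (a : D.J) {X : 𝒱.Obj}

/-- The comparison isomorphism. -/
noncomputable abbrev aC : Artin (toH T).W (baseW (toH (D.T' (D.t a))).W (D.L a)) :=
  artC (W := (toH T).W) (W' := (toH (D.T' (D.t a))).W) (L := D.L a) (toC (D.cmp a))

/-- The extension of the coefficients. -/
noncomputable abbrev aE : Artin (toH (D.T' (D.t a))).W (baseW (toH (D.T' (D.t a))).W (D.L a)) :=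
  artE (toH (D.T' (D.t a))).W (D.L a)

lemma sums_iff {j : ℕ} {w : (baseW (toH (D.T' (D.t a))).W (D.L a)).H X} :
    w ∈ AH.hodgeSums (toH (D.T' (D.t a))) (D.L a) Set.univ X j ↔
      w ∈ hSpan (T := toH (D.T' (D.t a))) (aE D a) X j := by
  constructor
  · intro h
    refine AddSubmonoid.closure_induction (motive := fun w _ =>
      w ∈ hSpan (T := toH (D.T' (D.t a))) (aE D a) X j) ?_ (Submodule.zero_mem _)
      (fun x y _ _ hx hy => Submodule.add_mem _ hx hy) h
    rintro _ ⟨l, -, c, hc, rfl⟩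
    exact Submodule.smul_mem _ _ (Submodule.subset_span ⟨c, hc, rfl⟩)
  · intro h
    change w ∈ Submodule.span _ _ at h
    induction h using Submodule.span_induction with
    | mem x hx =>
      obtain ⟨c, hc, rfl⟩ := hx
      exact AddSubmonoid.subset_closure ⟨1, trivial, c, hc, one_smul _ _⟩
    | zero => exact AddSubmonoid.zero_mem _
    | add x y _ _ hx hy => exact AddSubmonoid.add_mem _ hx hy
    | smul l x _ hx =>
      refine AddSubmonoid.closure_induction (motive := fun x _ =>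
        l • x ∈ AH.hodgeSums (toH (D.T' (D.t a))) (D.L a) Set.univ X j) ?_ ?_ ?_ hx
      · rintro _ ⟨l', -, c, hc, rfl⟩
        exact AddSubmonoid.subset_closure ⟨l * l', trivial, c, hc, mul_smul _ _ _⟩
      · rw [smul_zero]
        exact AddSubmonoid.zero_mem _
      · intro x y _ _ hx hy
        rw [smul_add]
        exact AddSubmonoid.add_mem _ hx hy

lemma univ_iff : PreservedWith D a Set.univ X ↔
    HH (T := toH T) (T₁ := toH (D.T' (D.t a))) (aC D a) (aE D a) X := by
  have h0 : PreservedWith D a Set.univ X ↔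
      ∀ j, AH.PreservedOver (AHS.toD D) a Set.univ X j := Iff.rfl
  rw [h0]
  refine forall_congr' fun j => forall_congr' fun x => imp_congr_right fun hx => ?_
  have hc : ((AHS.toD D).cmp a).c ^ j ≠ 0 := pow_ne_zero _ ((AHS.toD D).cmp a).ne
  constructor
  · rintro ⟨w, hw, h1⟩
    have h2 := (sums_iff D a (j := j) (w := w)).1 hw
    have h3 : (aC D a).f X x = ((AHS.toD D).cmp a).c ^ j • w := h1
    rw [h3]
    exact Submodule.smul_mem _ _ h2
  · intro h1
    set q : (baseW (toH (D.T' (D.t a))).W (D.L a)).K := ((AHS.toD D).cmp a).c ^ j with hq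
    refine ⟨q⁻¹ • (aC D a).f X x, (sums_iff D a).2 (Submodule.smul_mem _ _ h1), ?_⟩
    have h3 : q * q⁻¹ = 1 := mul_inv_cancel₀ hc
    have h2 : (aC D a).f X x = q • (q⁻¹ • (aC D a).f X x) := by
      rw [smul_smul, h3, one_smul]
    exact h2

/-- **Linear combinations of Hodge classes**: one power decides. -/
theorem with_power (hp : Polarisable T X) (hp' : Polarisable (D.T' (D.t a)) X) {b N : ℕ}
    (hb : finrank T.W.K (T.W.H X) = b)
    (hN : N = (2 * b) ^ (3 * b ^ 2) ∨ N = 4 ∧ TotallyRealCentre T X)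
    (h : PreservedWith D a Set.univ (pw X (N - 1))) (n : ℕ) :
    PreservedWith D a Set.univ (pw X n) := by
  obtain ⟨φ, hφ⟩ := hp.exists_isPol
  obtain ⟨φ₁, hφ₁⟩ := hp'.exists_isPol
  rw [univ_iff] at h ⊢
  rcases hN with hN | ⟨hN, hc⟩
  · refine hh_one (T := toH T) hp.realH hφ hp'.realH hφ₁ (N := N - 1) ?_ h n
    have h1 : finrank (toH T).W.K ((toH T).W.H X) = b := hb
    rw [h1, ← hN]
    omega
  · subst hN
    exact hh_all (T := toH T) hp.realH hφ hp'.realH hφ₁ hc.noSkew h n

end span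

section field

variable {T : AHS.HodgeTheory ops} (D : AHS.Conjugates T) (a : D.J) {X : 𝒱.Obj}

/-- A finite dimensional ring of numbers is a field. -/
lemma exists_field {L : Type} [Field L] [CharZero L] {N : ℕ} (e : Fin N → L) (E : Subring L)
    (hE : ∀ x, x ∈ E ↔ ∃ q : Fin N → ℚ, x = ∑ i, (q i : L) * e i) :
    ∃ F : Subfield L, DegreeAtMost F N ∧ ∀ i, e i ∈ F := by
  have hsm : ∀ (q : ℚ) (x : L), q • x = (q : L) * x := fun q x => by
    rw [Algebra.smul_def]
    rfl
  let A : Subalgebra ℚ L :=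
    { E with
      algebraMap_mem' := fun r => by
        have h1 : (1 : L) ∈ E := E.one_mem
        obtain ⟨q, hq⟩ := (hE 1).1 h1
        refine (hE _).2 ⟨fun i => r * q i, ?_⟩
        have h2 : algebraMap ℚ L r = (r : L) * 1 := by rw [mul_one]; rfl
        rw [h2, hq, Finset.mul_sum]
        refine Finset.sum_congr rfl fun i _ => ?_
        push_cast
        ring }
  have hA : ∀ x, x ∈ A ↔ x ∈ Submodule.span ℚ (Set.range e) := by
    intro x
    rw [Submodule.mem_span_range_iff_exists_fun]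
    change x ∈ E ↔ _
    rw [hE]
    refine exists_congr fun q => ?_
    simp only [hsm]
    exact eq_comm
  have hAe : Subalgebra.toSubmodule A = Submodule.span ℚ (Set.range e) := by
    ext x
    exact hA x
  have hfin : Module.Finite ℚ A := by
    have h1 : Module.Finite ℚ (Subalgebra.toSubmodule A) := by
      rw [hAe]
      exact Module.Finite.span_of_finite ℚ (Set.finite_range e)
    exact h1
  have halg : ∀ x : A, IsAlgebraic ℚ (x : L) := by
    intro x
    have h1 : IsIntegral ℚ x := Algebra.IsIntegral.isIntegral x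
    have h2 : IsIntegral ℚ (x : L) := h1.map A.val
    exact h2.isAlgebraic
  let F : Subfield L :=
    { E with
      inv_mem' := fun x hx => A.inv_mem_of_algebraic (x := ⟨x, hx⟩) (halg ⟨x, hx⟩) }
  refine ⟨F, ⟨e, hE⟩, fun i => ?_⟩
  refine (hE _).2 ⟨Pi.single i 1, ?_⟩
  rw [Finset.sum_eq_single i]
  · simp
  · intro j _ hj
    simp [Pi.single_eq_of_ne hj]
  · intro h
    exact absurd (Finset.mem_univ _) h

lemma degree_mono {L : Type} [Field L] {F : Subfield L} {N M : ℕ} (h : N ≤ M)
    (hF : DegreeAtMost F N) : DegreeAtMost F M := by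
  obtain ⟨d, rfl⟩ := Nat.exists_eq_add_of_le h
  obtain ⟨e, he⟩ := hF
  refine ⟨Fin.append e fun _ => 0, fun x => ?_⟩
  rw [he]
  constructor
  · rintro ⟨q, hq⟩
    refine ⟨Fin.append q fun _ => 0, ?_⟩
    rw [Fin.sum_univ_add]
    simp only [Fin.append_left, Fin.append_right, mul_zero, Finset.sum_const_zero, add_zero]
    exact hq
  · rintro ⟨q, hq⟩
    refine ⟨fun i => q (Fin.castAdd d i), ?_⟩
    rw [Fin.sum_univ_add] at hq
    simpa only [Fin.append_left, Fin.append_right, mul_zero, Finset.sum_const_zero,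
      add_zero] using hq

/-- **The number field.** -/
theorem exists_number_field [Nontrivial (T.W.H X)] (hp : Polarisable T X)
    (hc : TotallyRealCentre T X) (h4 : Preserved D a (pw X 3)) :
    ∃ F : Subfield (D.L a), DegreeAtMost F (4 ^ (finrank T.W.K (T.W.H X) ^ 2)) ∧
      ∀ n, PreservedWith D a F (pw X n) := by
  rw [preserved_iff] at h4
  obtain ⟨N, h1, h2, -, -, h5, -⟩ := FI.abs_index (D := oneD D a) hp hc h4
  obtain ⟨e, ⟨E, hE⟩, h6⟩ := h5 PUnit.unit
  have : CharZero (D.L a) := by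
    obtain ⟨τ⟩ := D.emb a
    refine ⟨fun m n h => ?_⟩
    have h1 := congrArg τ h
    rw [map_natCast, map_natCast] at h1
    exact_mod_cast h1
  -- the ring of coefficients
  let f : Fin N → D.L a := fun i => e i PUnit.unit
  let E' : Subring (PUnit → D.L a) := E
  have hE' : ∀ x : D.L a, x ∈ E'.map (Pi.evalRingHom (fun _ : PUnit => D.L a) PUnit.unit) ↔
      ∃ q : Fin N → ℚ, x = ∑ i, (q i : D.L a) * f i := by
    intro x
    rw [Subring.mem_map]
    constructor
    · rintro ⟨y, hy, rfl⟩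
      obtain ⟨q, hq⟩ := (hE y).1 hy
      exact ⟨q, hq PUnit.unit⟩
    · rintro ⟨q, hq⟩
      exact ⟨fun _ => x, (hE _).2 ⟨q, fun _ => hq⟩, rfl⟩
  obtain ⟨F, hF, hF'⟩ := exists_field f _ hE'
  refine ⟨F, degree_mono h2 hF, fun n j c hj => ?_⟩
  obtain ⟨c', hc', h7⟩ := h6 n j c hj
  exact ⟨_, AddSubmonoid.sum_mem _ fun i _ => AddSubmonoid.subset_closure
      ⟨f i, hF' i, c' i, hc' i, rfl⟩, h7 PUnit.unit⟩

end field

end Pool.Agent.Q60.CJ
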