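import Pool.Agent.Q60.MV.Deg

/-!
# Change of the family of classes
-/

open CategoryTheory AlgebraicGeometry TensorProduct

set_option linter.unusedSectionVars false

universe u v

namespace Pool.Agent.Q60.CJ

open Module Matrix
open Pool.Agent.H914 Pool.Agent.H914.VarClass Pool.Agent.H914.VarClass.Obj
  Pool.Agent.H914.WeilCohomology
open Pool.Agent.Y133.Half Pool.Agent.Q60.ED Pool.Agent.Q60.HD Pool.Agent.Q60.MV
open Pool.Agent.Q60.AB (wdF wdF_zero wdF_succ gs)

variable {k : Type u} [Field k] {𝒱 : VarClass k} {ops : CycleOps 𝒱}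

variable {W : WeilCohomology.{u, 0} ops} {X Y Z : 𝒱.Obj} {κ : Type} [Fintype κ] [DecidableEq κ]
  {g g' : κ → W.H X} {Φ : Matrix κ κ W.K}

lemma wdF_chg (h : ∀ k, g k = ∑ j, Φ j k • g' j) {n : ℕ} (f : Fin n → (Z ⟶ X)) (w : Fin n → κ) :
    wdF g f w = ∑ J : Fin n → κ, (∏ i, Φ (J i) (w i)) • wdF g' f J := by
  induction n with
  | zero =>
    rw [wdF_zero, Fintype.sum_unique, wdF_zero, Finset.univ_eq_empty, Finset.prod_empty, one_smul]
  | succ n ih =>
    rw [wdF_succ, ih, h, map_sum, Finset.sum_mul_sum, ← Fintype.sum_prod_type',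
      ← (Fin.consEquiv fun _ => κ).sum_comp]
    refine Finset.sum_congr rfl fun p _ => ?_
    rw [map_smul, smul_mul_smul_comm]
    have h1 : wdF g' f ((Fin.consEquiv fun _ => κ) p) =
        W.map (f 0) (g' p.1) * wdF g' (fun i => f i.succ) p.2 := by
      rw [wdF_succ]
      rfl
    rw [h1]
    congr 1
    rw [Fin.prod_univ_succ]
    rfl

/-- The classes of the tensors in two families. -/
lemma sum_chg (h : ∀ k, g k = ∑ j, Φ j k • g' j) {n : ℕ} (f : Fin n → (Z ⟶ X))
    (t : (Fin n → κ) → W.K) :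
    ∑ w, t w • wdF g f w = ∑ w, (tpow Φ n t) w • wdF g' f w := by
  simp only [wdF_chg h f, Finset.smul_sum, smul_smul]
  rw [Finset.sum_comm]
  refine Finset.sum_congr rfl fun J _ => ?_
  rw [tpow_apply, Finset.sum_smul]
  exact Finset.sum_congr rfl fun w _ => by rw [mul_comm]

end Pool.Agent.Q60.CJ
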