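import Pool.Agent.Q60.CJ.Pair
import Pool.Agent.Q60.CJ.Chg
import Pool.Agent.Q60.MV.TAb

/-!
# Two Hodge theories with comparison isomorphisms to the same cohomology theory: one degree
-/

open CategoryTheory AlgebraicGeometry TensorProduct

set_option linter.unusedSectionVars false

universe u v w

namespace Pool.Agent.Q60.CJ

open Module Matrix
open Pool.Agent.H914 Pool.Agent.H914.VarClass Pool.Agent.H914.VarClass.Obj
  Pool.Agent.H914.WeilCohomology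
open Pool.Agent.Y133.Half Pool.Agent.Y121.AH Pool.Agent.Q60.ED Pool.Agent.Q60.TD Pool.Agent.Q55
open Pool.Agent.Q60.MT Pool.Agent.Q60.MV
open Pool.Agent.Q60.AB (Blk sm x0 x0_val x0_of x0_inj sum_word tpow_x0 gs gs_mem gs_PH wdF clsF
  phd phd_T phd_Q crdF mem_crdF mem_crdF_succ mem_crdF_zero crdF_mul crdF_perm crdF_contr tens
  tens_eq tens_gr cen_deg NoSkewDeg cls_x0 exists_dbasis)
open Pool.Agent.Q60.HD (wd wd_zero wd_succ wd_prj cls crd mem_crd_succ RealH IsPol phs T_eq_crd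
  crd_mul crd_perm crd_contr mem_crd_zero rt rt_spec exists_tensor Qm)

variable {k : Type u} [Field k] {𝒱 : VarClass k} {ops : CycleOps 𝒱} {T T₁ : HodgeTheory ops}
  {W' : WeilCohomology.{u, 0} ops} {C : Artin T.W W'} {C₁ : Artin T₁.W W'} {X Y Z : 𝒱.Obj}

/-- The Hodge classes of the first theory in the tensors are linear combinations of Hodge classes
of the second theory in the tensors. -/
def SIn (C : Artin T.W W') (C₁ : Artin T₁.W W') (X : 𝒱.Obj) (i m : ℕ) : Prop :=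
  ∀ x ∈ tens X T.W i m, ∀ j, IsHodge T (pw X m) j x →
    C.f (pw X m) x ∈ Submodule.span W'.K
      (C₁.f (pw X m) '' {y | y ∈ tens X T₁.W i m ∧ IsHodge T₁ (pw X m) j y})

section

variable {ι : Type} [Fintype ι] [DecidableEq ι] {dg : ι → ℕ}

section mat

variable (f f₁ : Basis ι W'.K (W'.H X)) (i : ℕ)

/-- The matrix of the change of the basis in degree `i`. -/
noncomputable def cm (dg : ι → ℕ) (i : ℕ) : Matrix {j : ι // dg j = i} {j : ι // dg j = i} W'.K :=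
  Matrix.of fun j k => f₁.repr (f k.1) j.1

lemma cm_spec (hf : ∀ j, f j ∈ W'.gr X (dg j)) (hf₁ : ∀ j, f₁ j ∈ W'.gr X (dg j))
    (k : {j : ι // dg j = i}) :
    gs f dg i k = ∑ j, cm f f₁ dg i j k • gs f₁ dg i j := by
  classical
  have h1 : gs f dg i k = ∑ j, f₁.repr (f k.1) j • f₁ j := (f₁.sum_repr _).symm
  rw [h1, ← Finset.sum_filter_of_ne (p := fun j => dg j = i) fun j _ hj => ?_]
  · exact Finset.sum_subtype _ (fun j => by simp) _
  · by_contra hne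
    apply hj
    have h2 : f k.1 ∈ W'.gr X i := gs_mem f hf i k
    rw [Pool.Agent.Q60.AB.repr_zero f₁ hf₁ h2 hne, zero_smul]

lemma cm_det (hf : ∀ j, f j ∈ W'.gr X (dg j)) (hf₁ : ∀ j, f₁ j ∈ W'.gr X (dg j)) :
    (cm f f₁ dg i).det ≠ 0 := by
  intro h
  obtain ⟨v, hv, h1⟩ := Matrix.exists_mulVec_eq_zero_iff.2 h
  have h2 : ∑ k, v k • gs f dg i k = 0 := by
    simp only [cm_spec f f₁ i hf hf₁, Finset.smul_sum, smul_smul]
    rw [Finset.sum_comm]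
    refine Finset.sum_eq_zero fun j _ => ?_
    rw [← Finset.sum_smul]
    have h3 := congrFun h1 j
    rw [Matrix.mulVec, dotProduct, Pi.zero_apply] at h3
    rw [show ∑ x, v x * cm f f₁ dg i j x = ∑ x, cm f f₁ dg i j x * v x from
      Finset.sum_congr rfl fun x _ => mul_comm _ _, h3, zero_smul]
  apply hv
  have h3 : LinearIndependent W'.K (gs f dg i) :=
    f.linearIndependent.comp (fun k : {j : ι // dg j = i} => k.1) Subtype.val_injective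
  funext k
  exact Fintype.linearIndependent_iff.1 h3 v h2 k

/-- The class of a tensor in two bases. -/
lemma cl_chg (hf : ∀ j, f j ∈ W'.gr X (dg j)) (hf₁ : ∀ j, f₁ j ∈ W'.gr X (dg j)) {n : ℕ}
    (g : Fin n → (Z ⟶ X)) (t : (Fin n → {j : ι // dg j = i}) → W'.K) :
    cl f i g t = cl f₁ i g (tpow (cm f f₁ dg i) n t) := by
  rw [cl_sum, cl_sum]
  exact sum_chg (cm_spec f f₁ i hf hf₁) g t

end mat

variable (e : Basis ι T.W.K (T.W.H X)) (e₁ : Basis ι T₁.W.K (T₁.W.H X))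
  (e' e₁' : Basis ι W'.K (W'.H X)) (hee : ∀ i, e' i = C.f X (e i))
  (hee₁ : ∀ i, e₁' i = C₁.f X (e₁ i))
  (he : ∀ j, e j ∈ T.W.gr X (dg j)) (he₁ : ∀ j, e₁ j ∈ T₁.W.gr X (dg j))
  (he' : ∀ j, e' j ∈ W'.gr X (dg j)) (he₁' : ∀ j, e₁' j ∈ W'.gr X (dg j))
  (hR : RealH T X) {φ : Module.End T.W.K (T.W.H X)} (hφ : IsPol T X φ)
  (hR₁ : RealH T₁ X) {φ₁ : Module.End T₁.W.K (T₁.W.H X)} (hφ₁ : IsPol T₁ X φ₁) (i : ℕ)

include he hee hee₁ he' he₁' in
/-- From tensors to classes. -/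
lemma sin_of {m : ℕ}
    (h : ∀ t ∈ (phd e he hR hφ i).T (m + 1), tpow (cm e' e₁' dg i) (m + 1) (bc W'.K t) ∈
      bcS W'.K ((phd e₁ he₁ hR₁ hφ₁ i).T (m + 1))) : SIn C C₁ X i m := by
  intro x hx j hj
  obtain ⟨t, rfl⟩ := (tens_iff e he i).1 hx
  have h1 := h t ((mem_V e he hR hφ i).2 (ClassPred.sp_of (Q := hodgePred T) hj))
  set S : Submodule W'.K (W'.H (pw X m)) := Submodule.span W'.K (C₁.f (pw X m) ''
    {y | y ∈ tens X T₁.W i m ∧ IsHodge T₁ (pw X m) j y}) with hS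
  have h2 : bcS W'.K ((phd e₁ he₁ hR₁ hφ₁ i).T (m + 1)) ≤
      S.comap (H914.proj (W'.isInternal (pw X m)) (2 * j) ∘ₗ cl e₁' i (prj X m)) := by
    rw [bcS, Submodule.span_le]
    rintro _ ⟨s, hs, rfl⟩
    change H914.proj (W'.isInternal (pw X m)) (2 * j) (cl e₁' i (prj X m) (bc W'.K s)) ∈ S
    rw [cl_bc (T := T₁) e₁ e₁' hee₁, proj_C]
    have hs' : s ∈ (phd e₁ he₁ hR₁ hφ₁ i).T (m + 1) := hs
    rw [mem_V] at hs'
    have hx : clsF (gs e₁ dg i) (prj X m) s ∈ tens X T₁.W i m := (tens_iff e₁ he₁ i).2 ⟨s, rfl⟩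
    refine Submodule.subset_span ⟨_, ⟨?_, ClassPred.sp_proj (Q := hodgePred T₁) hs' j⟩, rfl⟩
    rw [proj_gr (tens_gr _ _ _ _ hx)]
    split_ifs
    · exact hx
    · exact Submodule.zero_mem _
  have h3 := h2 h1
  change H914.proj (W'.isInternal (pw X m)) (2 * j) (cl e₁' i (prj X m) _) ∈ S at h3
  rw [← cl_chg e' e₁' i he' he₁', cl_bc e e' hee, proj_same _ (Artin.gr (C := C) hj.1)] at h3
  exact h3

include he hee hee₁ he' he₁' in
/-- From classes to tensors. -/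
lemma of_sin {m : ℕ} (hev : Even ((m + 1) * i)) (h : SIn C C₁ X i m)
    {t : (Fin (m + 1) → {j : ι // dg j = i}) → ℚ} (ht : t ∈ (phd e he hR hφ i).T (m + 1)) :
    tpow (cm e' e₁' dg i) (m + 1) (bc W'.K t) ∈
      bcS W'.K ((phd e₁ he₁ hR₁ hφ₁ i).T (m + 1)) := by
  rw [mem_V] at ht
  have hx : clsF (gs e dg i) (prj X m) t ∈ tens X T.W i m := (tens_iff e he i).2 ⟨t, rfl⟩
  obtain ⟨j, hj⟩ := hev
  have h1 := ClassPred.sp_proj (Q := hodgePred T) ht j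
  have h2 : clsF (gs e dg i) (prj X m) t ∈ T.W.gr (pw X m) (2 * j) := by
    have h3 := tens_gr _ _ _ _ hx
    have h4 : (m + 1) * i = 2 * j := by omega
    rwa [h4] at h3
  rw [proj_same _ h2] at h1
  have h3 := h _ hx j h1
  rw [← cl_bc e e' hee, cl_chg e' e₁' i he' he₁'] at h3
  have h4 : Submodule.span W'.K (C₁.f (pw X m) '' {y | y ∈ tens X T₁.W i m ∧
      IsHodge T₁ (pw X m) j y}) ≤
      (bcS W'.K ((phd e₁ he₁ hR₁ hφ₁ i).T (m + 1))).map (cl e₁' i (prj X m)) := by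
    rw [Submodule.span_le]
    rintro _ ⟨y, ⟨hy, hyj⟩, rfl⟩
    obtain ⟨s, rfl⟩ := (tens_iff e₁ he₁ i).1 hy
    refine ⟨bc W'.K s, ?_, cl_bc (T := T₁) e₁ e₁' hee₁ i _ s⟩
    exact bc_mem ((mem_V e₁ he₁ hR₁ hφ₁ i).2 (ClassPred.sp_of (Q := hodgePred T₁) hyj))
  obtain ⟨s, hs, hst⟩ := h4 h3
  rwa [← cl_inj e₁' i m hst]

end

/-- Two graded bases with the same degrees. -/
lemma exists_two (hrat : ∀ r : T.W.K, ∃ q : ℚ, (q : T.W.K) = r)
    (hrat₁ : ∀ r : T₁.W.K, ∃ q : ℚ, (q : T₁.W.K) = r) (C : Artin T.W W') (C₁ : Artin T₁.W W')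
    (X : 𝒱.Obj) : ∃ (N : ℕ) (dg : Fin N → ℕ) (e : Basis (Fin N) T.W.K (T.W.H X))
      (e₁ : Basis (Fin N) T₁.W.K (T₁.W.H X)) (e' e₁' : Basis (Fin N) W'.K (W'.H X)),
      (∀ j, e j ∈ T.W.gr X (dg j)) ∧ (∀ j, e₁ j ∈ T₁.W.gr X (dg j)) ∧
      (∀ i, e' i = C.f X (e i)) ∧ (∀ i, e₁' i = C₁.f X (e₁ i)) := by
  classical
  obtain ⟨e, dg, he⟩ := exists_dbasis T.W X
  obtain ⟨e₁, dg₁, he₁⟩ := exists_dbasis T₁.W X
  obtain ⟨e', hee⟩ := exists_eX C hrat e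
  obtain ⟨e₁', hee₁⟩ := exists_eX C₁ hrat₁ e₁
  have hg : ∀ j, e' j ∈ W'.gr X (dg j) := he_gr e e' hee he
  have hg₁ : ∀ j, e₁' j ∈ W'.gr X (dg₁ j) := he_gr (T := T₁) e₁ e₁' hee₁ he₁
  have h1 : ∀ i, Nonempty ({j // dg j = i} ≃ {j // dg₁ j = i}) := fun i =>
    Fintype.card_eq.1 ((card_deg e' hg i).trans (card_deg e₁' hg₁ i).symm)
  let τ := Equiv.ofFiberEquiv fun i => (h1 i).some
  have hτ : ∀ j, dg₁ (τ j) = dg j := fun j => Equiv.ofFiberEquiv_map _ j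
  refine ⟨_, dg, e, e₁.reindex τ.symm, e', e₁'.reindex τ.symm, he, fun j => ?_, hee,
    fun j => ?_⟩
  · rw [Basis.reindex_apply, Equiv.symm_symm, ← hτ]
    exact he₁ _
  · rw [Basis.reindex_apply, Basis.reindex_apply]
    exact hee₁ _

/-- **Two Hodge theories**: the tensors of degree four of the cohomology of degree `i` decide
whether the Hodge classes of the first theory are linear combinations of Hodge classes of the second
theory. -/
theorem sin_all (hR : RealH T X) {φ : Module.End T.W.K (T.W.H X)} (hφ : IsPol T X φ)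
    (hR₁ : RealH T₁ X) {φ₁ : Module.End T₁.W.K (T₁.W.H X)} (hφ₁ : IsPol T₁ X φ₁) (i : ℕ)
    (hns : NoSkewDeg T X i φ) (h4 : SIn C C₁ X i 3) (m : ℕ) : SIn C C₁ X i m := by
  classical
  obtain ⟨N, dg, e, e₁, e', e₁', he, he₁, hee, hee₁⟩ := exists_two T.rat T₁.rat C C₁ X
  have he' : ∀ j, e' j ∈ W'.gr X (dg j) := he_gr e e' hee he
  have he₁' : ∀ j, e₁' j ∈ W'.gr X (dg j) := he_gr (T := T₁) e₁ e₁' hee₁ he₁
  obtain ⟨C', hC'⟩ := exists_psys e he hR hφ i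
  refine sin_of e e₁ e' e₁' hee hee₁ he he₁ he' he₁' hR hφ hR₁ hφ₁ i fun t ht => ?_
  exact pair_core (phd e he hR hφ i) (phd e₁ he₁ hR₁ hφ₁ i)
    (fun c hc hcom hsk => cen_deg e he hR hφ i hns c hc hcom hsk) C' hC'
    (cm_det e' e₁' i he' he₁')
    (fun s hs => of_sin e e₁ e' e₁' hee hee₁ he he₁ he' he₁' hR hφ hR₁ hφ₁ i ⟨2 * i, by ring⟩
      h4 hs) ht

end Pool.Agent.Q60.CJ
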