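import Pool.Agent.Q60.CJ.Deg
import Pool.Agent.Q60.MV.Whole

/-!
# Two Hodge theories with comparison isomorphisms to the same cohomology theory: all degrees
-/

open CategoryTheory AlgebraicGeometry TensorProduct

set_option linter.unusedSectionVars false

universe u v w

namespace Pool.Agent.Q60.CJ

open Module Matrix
open Pool.Agent.H914 Pool.Agent.H914.VarClass Pool.Agent.H914.VarClass.Obj
  Pool.Agent.H914.WeilCohomology
open Pool.Agent.Y133.Half Pool.Agent.Y121.AH Pool.Agent.Q60.ED Pool.Agent.Q60.TD Pool.Agent.Q55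
open Pool.Agent.Q60.MT Pool.Agent.Q60.MV
open Pool.Agent.Q60.AB (wdF)
open Pool.Agent.Q60.HD (wd wd_zero wd_succ wd_prj cls crd mem_crd_succ RealH IsPol phs T_eq_crd
  crd_mul crd_perm crd_contr mem_crd_zero rt rt_spec exists_tensor Qm)

variable {k : Type u} [Field k] {𝒱 : VarClass k} {ops : CycleOps 𝒱} {T T₁ : HodgeTheory ops}
  {W' : WeilCohomology.{u, 0} ops} {C : Artin T.W W'} {C₁ : Artin T₁.W W'} {X Y Z : 𝒱.Obj}

/-- The Hodge classes of the first theory are linear combinations of Hodge classes of the second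
theory. -/
def HH (C : Artin T.W W') (C₁ : Artin T₁.W W') (X : 𝒱.Obj) : Prop :=
  ∀ j x, IsHodge T X j x → C.f X x ∈ hSpan C₁ X j

section

variable {ι : Type} [Fintype ι] [DecidableEq ι] {dg : ι → ℕ}

section mat

variable (f f₁ : Basis ι W'.K (W'.H X))

/-- The matrix of the change of the basis. -/
noncomputable def cf : Matrix ι ι W'.K := Matrix.of fun j k => f₁.repr (f k) j

lemma cf_spec (k : ι) : f k = ∑ j, cf f f₁ j k • f₁ j := (f₁.sum_repr _).symm

lemma cf_det : (cf f f₁).det ≠ 0 := by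
  intro h
  obtain ⟨v, hv, h1⟩ := Matrix.exists_mulVec_eq_zero_iff.2 h
  have h2 : ∑ k, v k • f k = 0 := by
    have h4 : ∀ k, v k • f k = ∑ j, (v k * cf f f₁ j k) • f₁ j := by
      intro k
      rw [cf_spec f f₁ k, Finset.smul_sum]
      simp only [smul_smul]
    simp only [h4]
    rw [Finset.sum_comm]
    refine Finset.sum_eq_zero fun j _ => ?_
    rw [← Finset.sum_smul]
    have h3 := congrFun h1 j
    rw [Matrix.mulVec, dotProduct, Pi.zero_apply] at h3
    rw [show ∑ x, v x * cf f f₁ j x = ∑ x, cf f f₁ j x * v x from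
      Finset.sum_congr rfl fun x _ => mul_comm _ _, h3, zero_smul]
  apply hv
  funext k
  exact Fintype.linearIndependent_iff.1 f.linearIndependent v h2 k

lemma clsK_chg {n : ℕ} (g : Fin n → (Z ⟶ X)) (t : (Fin n → ι) → W'.K) :
    clsK f g t = clsK f₁ g (tpow (cf f f₁) n t) := by
  have h1 : ∀ (b : Basis ι W'.K (W'.H X)) (t : (Fin n → ι) → W'.K),
      clsK b g t = ∑ w, t w • wdF b g w := fun b t => rfl
  rw [h1, h1]
  exact sum_chg (cf_spec f f₁) g t

end mat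

variable (e : Basis ι T.W.K (T.W.H X)) (e₁ : Basis ι T₁.W.K (T₁.W.H X))
  (e' e₁' : Basis ι W'.K (W'.H X)) (hee : ∀ i, e' i = C.f X (e i))
  (hee₁ : ∀ i, e₁' i = C₁.f X (e₁ i))
  (hR : RealH T X) {φ : Module.End T.W.K (T.W.H X)} (hφ : IsPol T X φ)
  (hR₁ : RealH T₁ X) {φ₁ : Module.End T₁.W.K (T₁.W.H X)} (hφ₁ : IsPol T₁ X φ₁)

include hee hee₁ in
/-- From tensors to classes. -/
lemma hh_of {m : ℕ}
    (h : ∀ t ∈ (phs e hR hφ).T (m + 1), tpow (cf e' e₁') (m + 1) (bc W'.K t) ∈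
      bcS W'.K ((phs e₁ hR₁ hφ₁).T (m + 1))) : HH C C₁ (pw X m) := by
  intro j x hx
  obtain ⟨t, ht, hxt⟩ := exists_bc e hR hφ hx
  have h1 := h t ht
  have h2 : bcS W'.K ((phs e₁ hR₁ hφ₁).T (m + 1)) ≤ (hSpan C₁ (pw X m) j).comap
      (H914.proj (W'.isInternal (pw X m)) (2 * j) ∘ₗ clsL e₁' (prj X m)) := by
    rw [bcS, Submodule.span_le]
    rintro _ ⟨s, hs, rfl⟩
    change H914.proj (W'.isInternal (pw X m)) (2 * j) (clsK e₁' (prj X m) (bc W'.K s)) ∈
      hSpan C₁ (pw X m) j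
    rw [C_cls C₁ e₁ e₁' hee₁, proj_C (T := T₁)]
    have hs' : s ∈ (phs e₁ hR₁ hφ₁).T (m + 1) := hs
    rw [T_eq_crd, mem_crd_succ] at hs'
    exact Submodule.subset_span ⟨_, ClassPred.sp_proj (Q := hodgePred T₁) hs' j, rfl⟩
  have h3 := h2 h1
  change H914.proj (W'.isInternal (pw X m)) (2 * j) (clsK e₁' (prj X m) _) ∈
    hSpan C₁ (pw X m) j at h3
  rw [← clsK_chg e' e₁', C_cls C e e' hee, hxt, proj_same _ (Artin.gr (C := C) hx.1)] at h3
  exact h3

include hee hee₁ in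
/-- From classes to tensors. -/
lemma of_hh {m : ℕ} (h : HH C C₁ (pw X m)) {t : (Fin (m + 1) → ι) → ℚ}
    (ht : t ∈ (phs e hR hφ).T (m + 1)) : tpow (cf e' e₁') (m + 1) (bc W'.K t) ∈
      bcS W'.K ((phs e₁ hR₁ hφ₁).T (m + 1)) := by
  have h4 : ∀ j, hSpan C₁ (pw X m) j ≤
      (bcS W'.K ((phs e₁ hR₁ hφ₁).T (m + 1))).map (clsL e₁' (prj X m)) := by
    intro j
    rw [hSpan, Submodule.span_le]
    rintro _ ⟨y, hyj, rfl⟩
    obtain ⟨s, hs, rfl⟩ := exists_bc e₁ hR₁ hφ₁ hyj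
    exact ⟨bc W'.K s, bc_mem hs, C_cls C₁ e₁ e₁' hee₁ _ s⟩
  rw [T_eq_crd, mem_crd_succ] at ht
  have h5 : C.f (pw X m) (cls e (prj X m) t) ∈
      (bcS W'.K ((phs e₁ hR₁ hφ₁).T (m + 1))).map (clsL e₁' (prj X m)) := by
    refine ClassPred.sp_ind (Q := hodgePred T) (q := fun c => C.f (pw X m) c ∈
      (bcS W'.K ((phs e₁ hR₁ hφ₁).T (m + 1))).map (clsL e₁' (prj X m))) ?_ ?_ ?_ ht
    · intro j x hx
      exact h4 j (h j x hx)
    · rw [map_zero]
      exact Submodule.zero_mem _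
    · intro x y hx hy
      rw [map_add]
      exact Submodule.add_mem _ hx hy
  rw [← C_cls C e e' hee, clsK_chg e' e₁'] at h5
  obtain ⟨s, hs, hst⟩ := h5
  have h6 : s = tpow (cf e' e₁') (m + 1) (bc W'.K t) := clsK_inj e₁' m hst
  rwa [← h6]

end

/-- **Two Hodge theories**: the fourth power of `X` decides whether the Hodge classes of the first
theory on the powers of `X` are linear combinations of Hodge classes of the second theory. -/
theorem hh_all (hR : RealH T X) {φ : Module.End T.W.K (T.W.H X)} (hφ : IsPol T X φ)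
    (hR₁ : RealH T₁ X) {φ₁ : Module.End T₁.W.K (T₁.W.H X)} (hφ₁ : IsPol T₁ X φ₁)
    (hns : FI.NoSkew T X) (h4 : HH C C₁ (pw X 3)) (m : ℕ) : HH C C₁ (pw X m) := by
  classical
  obtain ⟨N, dg, e, e₁, e', e₁', he, he₁, hee, hee₁⟩ := exists_two T.rat T₁.rat C C₁ X
  obtain ⟨C', hC'⟩ := exists_psysH e he hR hφ
  refine hh_of e e₁ e' e₁' hee hee₁ hR hφ hR₁ hφ₁ fun t ht => ?_
  exact pair_core (phs e hR hφ) (phs e₁ hR₁ hφ₁)
    (fun c hc hcom hsk => FI.cen_of e hR hφ hns c hc hcom hsk) C' hC'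
    (cf_det e' e₁') (fun s hs => of_hh e e₁ e' e₁' hee hee₁ hR hφ hR₁ hφ₁ h4 hs) ht

end Pool.Agent.Q60.CJ
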