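import Pool.Agent.Q60.CJ.Sys
import Pool.Agent.Q60.CJ.Full
import Pool.Agent.Q60.HD.Bnd

/-!
# Two Hodge theories: one power decides, without a condition on the centre
-/

open CategoryTheory AlgebraicGeometry TensorProduct

set_option linter.unusedSectionVars false

universe u v w

namespace Pool.Agent.Q60.CJ

open Module Matrix
open Pool.Agent.H914 Pool.Agent.H914.VarClass Pool.Agent.H914.VarClass.Obj
  Pool.Agent.H914.WeilCohomology
open Pool.Agent.Y133.Half Pool.Agent.Y121.AH Pool.Agent.Q60.ED Pool.Agent.Q60.TD Pool.Agent.Q55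
open Pool.Agent.Q60.MT Pool.Agent.Q60.MV
open Pool.Agent.Q60.HD (RealH IsPol phs)

section tensors

variable {ι : Type} [Fintype ι] [DecidableEq ι] (V V' : PHS ι) {L : Type} [Field L] [Algebra ℚ L]

/-- **Two Hodge structures**, without a condition on the centre. -/
theorem pair_gen (C' : PSys V.Q) (hC' : ∀ n, C'.S n = V.T n) {Φ : Matrix ι ι L}
    (hΦ : Φ.det ≠ 0) {D : ℕ} (hD : (2 * V.d + 1) ^ (Fintype.card ι ^ 2) *
      (Fintype.card ι ^ 2 + 1) ^ (Fintype.card ι ^ 2 + 1) ≤ D)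
    (h : ∀ m ≤ 2 * D, ∀ t ∈ V.T m, tpow Φ m (bc L t) ∈ bcS L (V'.T m)) {n : ℕ}
    {t : (Fin n → ι) → ℚ} (ht : t ∈ V.T n) : tpow Φ n (bc L t) ∈ bcS L (V'.T n) := by
  have hD1 : 1 ≤ D := by
    refine le_trans ?_ hD
    exact Nat.one_le_iff_ne_zero.2 (Nat.mul_ne_zero (pow_ne_zero _ (by omega))
      (pow_ne_zero _ (by omega)))
  have hΩ := (mem_iff V' hΦ).1 (h 2 (by omega) _ PHS.Om_mem)
  have key := (spanSys V V' C' hC' hΩ).eq_top (fun n t ht => ht.1) hD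
    (fun m hm t ht => ⟨ht, (mem_iff V' hΦ).1 (h m hm t ht)⟩) n ht
  exact (mem_iff V' hΦ).2 key.2

end tensors

variable {k : Type u} [Field k] {𝒱 : VarClass k} {ops : CycleOps 𝒱} {T T₁ : HodgeTheory ops}
  {W' : WeilCohomology.{u, 0} ops} {C : Artin T.W W'} {C₁ : Artin T₁.W W'} {X Y Z : 𝒱.Obj}

lemma hh_retract {s : Y ⟶ Z} {p : Z ⟶ Y} (h : s ≫ p = 𝟙 Y) (hZ : HH C C₁ Z) : HH C C₁ Y := by
  intro j x hx
  have h1 := hZ j _ ((hodgePred T).map p hx)
  have h4 : hSpan C₁ Z j ≤ (hSpan C₁ Y j).comap (W'.map s).toLinearMap := by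
    rw [hSpan, Submodule.span_le]
    rintro _ ⟨y, hy, rfl⟩
    change W'.map s (C₁.f Z y) ∈ hSpan C₁ Y j
    rw [← C₁.map]
    exact Submodule.subset_span ⟨_, (hodgePred T₁).map s hy, rfl⟩
  have h2 := h4 h1
  change W'.map s (C.f Z (T.W.map p x)) ∈ hSpan C₁ Y j at h2
  rwa [C.map, ← W'.map_comp, h, W'.map_id] at h2

lemma hh_le {m n : ℕ} (h : m ≤ n) (hn : HH C C₁ (pw X n)) : HH C C₁ (pw X m) := by
  obtain ⟨s, p, hsp⟩ := exists_retract (X := X) h
  exact hh_retract hsp hn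

/-- **One power decides.** -/
theorem hh_one (hR : RealH T X) {φ : Module.End T.W.K (T.W.H X)} (hφ : IsPol T X φ)
    (hR₁ : RealH T₁ X) {φ₁ : Module.End T₁.W.K (T₁.W.H X)} (hφ₁ : IsPol T₁ X φ₁) {N : ℕ}
    (hN : (2 * finrank T.W.K (T.W.H X)) ^ (3 * finrank T.W.K (T.W.H X) ^ 2) ≤ N + 1)
    (h : HH C C₁ (pw X N)) (m : ℕ) : HH C C₁ (pw X m) := by
  classical
  rcases subsingleton_or_nontrivial (T.W.H X) with hs | hn
  · have h1 : finrank T.W.K (T.W.H (pw X m)) = 0 := by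
      rw [finrank_pw, finrank_zero_of_subsingleton, zero_pow (Nat.succ_ne_zero m)]
    have h2 : Subsingleton (T.W.H (pw X m)) := finrank_zero_iff.1 h1
    intro j x _
    rw [Subsingleton.elim x 0, map_zero]
    exact Submodule.zero_mem _
  obtain ⟨N₀, dg, e, e₁, e', e₁', he, he₁, hee, hee₁⟩ := exists_two T.rat T₁.rat C C₁ X
  have hcard : Fintype.card (Fin N₀) = finrank T.W.K (T.W.H X) := (finrank_eq_card_basis e).symm
  obtain ⟨C', hC'⟩ := exists_psysH e he hR hφ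
  refine hh_of e e₁ e' e₁' hee hee₁ hR hφ hR₁ hφ₁ fun t ht => ?_
  obtain ⟨E, hE⟩ := T.dec.polar X
  have h1 := Pool.Agent.Q60.HD.dim_lt hE.1 hE.2.1
  have h2 := Pool.Agent.Q60.HD.arith h1
  refine pair_gen (phs e hR hφ) (phs e₁ hR₁ hφ₁) C' hC' (cf_det e' e₁') le_rfl
    (fun m hm s hs => ?_) ht
  have h3 : m ≤ N + 1 := by
    refine hm.trans (le_trans ?_ hN)
    rw [hcard]
    exact h2
  cases m with
  | zero =>
    have h4 : (phs e₁ hR₁ hφ₁).T 0 = ⊤ := by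
      rw [Pool.Agent.Q60.HD.T_eq_crd, eq_top_iff]
      intro s _
      exact Pool.Agent.Q60.HD.mem_crd_zero e₁ s
    have h5 : ∀ s : (Fin 0 → Fin N₀) → W'.K, s ∈ bcS W'.K ((phs e₁ hR₁ hφ₁).T 0) := by
      intro s
      rw [h4]
      have h6 : s = s default • bc W'.K (fun _ => (1 : ℚ)) := by
        funext J
        rw [Pi.smul_apply, bc, map_one, smul_eq_mul, mul_one, Subsingleton.elim J default]
      rw [h6]
      exact Submodule.smul_mem _ _ (bc_mem Submodule.mem_top)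
    exact h5 _
  | succ m =>
    exact of_hh e e₁ e' e₁' hee hee₁ hR hφ hR₁ hφ₁ (hh_le (by omega) h) hs

end Pool.Agent.Q60.CJ
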