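import Pool.Agent.Q60.MV.Hdg

/-!
# Comparison of two Hodge structures over an extension of the field of rational numbers
-/

set_option linter.unusedSectionVars false

namespace Pool.Agent.Q60.CJ

open Module Matrix Pool.Agent.Q60.ED Pool.Agent.Q60.NP Pool.Agent.Q60.TD Pool.Agent.Q60.FI
  Pool.Agent.Q60.TP Pool.Agent.Q60.MV

variable {ι : Type} [Fintype ι] [DecidableEq ι] (V V' : PHS ι)

/-- **Two Hodge structures.** If a matrix maps the Hodge tensors of degree four of the first Hodge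
structure to linear combinations of Hodge tensors of the second Hodge structure, then the same is
true for the Hodge tensors of all degrees. -/
theorem pair_core (hcen : ∀ c : Matrix ι ι ℚ, tv V.Q c ∈ V.T 2 →
      (∀ a, tv V.Q a ∈ V.T 2 → a * c = c * a) → (∀ s ∈ V.T 2, aop c s = 0) → c = 0)
    (C' : PSys V.Q) (hC' : ∀ n, C'.S n = V.T n) {L : Type} [Field L] [Algebra ℚ L]
    {Φ : Matrix ι ι L} (hΦ : Φ.det ≠ 0)
    (h4 : ∀ s ∈ V.T 4, tpow Φ 4 (bc L s) ∈ bcS L (V'.T 4)) {n : ℕ}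
    {t : (Fin n → ι) → ℚ} (ht : t ∈ V.T n) : tpow Φ n (bc L t) ∈ bcS L (V'.T n) := by
  refine mem_bc_of_Lie V' fun B hB => ?_
  rw [aop_conjk hΦ]
  have h1 : ∀ s ∈ V.T 4, aop (Φ⁻¹ * B.map (algebraMap ℚ L) * Φ) (bc L s) = 0 := by
    intro s hs
    apply tp_inj hΦ
    rw [← aop_conjk hΦ, aop_bcS (hB 4) (h4 s hs)]
    rw [map_zero]
  rw [hodge_lie_bc V hcen C' hC' h1 ht]
  exact map_zero _

end Pool.Agent.Q60.CJ
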