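import Pool.Agent.Q60.CJ.Pair

/-!
# The Hodge tensors which are mapped to combinations of Hodge tensors of a second Hodge structure
-/

set_option linter.unusedSectionVars false

namespace Pool.Agent.Q60.CJ

open Module Matrix Pool.Agent.Q60.ED Pool.Agent.Q60.NP Pool.Agent.Q60.TD Pool.Agent.Q60.FI
  Pool.Agent.Q60.TP Pool.Agent.Q60.MV

section alg

variable {K : Type} [Field K] {ι : Type} [Fintype ι] [DecidableEq ι]

lemma sum_upd {n : ℕ} (J L : Fin n → ι) (k : Fin n) (F : ι → K) :
    (∑ c, if Function.update J k c = L then F c else 0) =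
      if Function.update J k (L k) = L then F (L k) else 0 := by
  rw [Finset.sum_eq_single (L k)]
  · intro c _ hc
    refine if_neg fun h => hc ?_
    rw [← h, Function.update_self]
  · intro h
    exact absurd (Finset.mem_univ _) h

lemma upd_iff {n : ℕ} (J L : Fin n → ι) (k : Fin n) :
    Function.update J k (L k) = L ↔ Function.update L k (J k) = J := by
  constructor
  · intro h
    rw [← h, Function.update_idem, Function.update_eq_self]
  · intro h
    rw [← h, Function.update_idem, Function.update_eq_self]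

/-- The transposed matrix gives the adjoint operator. -/
lemma aop_adj (x : Matrix ι ι K) {n : ℕ} (s w : (Fin n → ι) → K) :
    ∑ I, aop x s I * w I = ∑ I, s I * aop xᵀ w I := by
  simp only [aop, sum_upd, Finset.sum_mul, Finset.mul_sum]
  rw [Finset.sum_comm]
  refine Finset.sum_congr rfl fun J _ => Finset.sum_congr rfl fun L _ =>
    Finset.sum_congr rfl fun k _ => ?_
  by_cases h : Function.update J k (L k) = L
  · rw [if_pos h, if_pos ((upd_iff J L k).1 h), Matrix.transpose_apply]
    ring
  · rw [if_neg h, if_neg fun h' => h ((upd_iff J L k).2 h'), zero_mul, mul_zero]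

/-- The infinitesimal action on a tensor with two groups of indices. -/
lemma aop_append (x : Matrix ι ι K) {m n : ℕ} (t : (Fin (m + n) → ι) → K) (I : Fin m → ι)
    (J : Fin n → ι) : aop x t (Fin.append I J) = aop x (fun I => t (Fin.append I J)) I +
      ∑ k, ∑ j, x (J k) j * t (Fin.append I (Function.update J k j)) := by
  rw [aop_apply, Fin.sum_univ_add, aop_apply]
  simp only [Fin.append_left, Fin.append_right]
  congr 1
  · refine Finset.sum_congr rfl fun k _ => Finset.sum_congr rfl fun j _ => ?_
    congr 2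
    funext l
    refine Fin.addCases (fun l => ?_) (fun l => ?_) l
    · rw [Fin.append_left, Function.update_apply, Function.update_apply]
      by_cases h : l = k
      · rw [if_pos h, if_pos (by rw [h])]
      · rw [if_neg h, if_neg (fun h' => h (Fin.castAdd_injective m n h')), Fin.append_left]
    · rw [Fin.append_right, Function.update_apply, if_neg, Fin.append_right]
      intro h
      have := congrArg Fin.val h
      simp only [Fin.val_natAdd, Fin.val_castAdd] at this
      omega
  · refine Finset.sum_congr rfl fun k _ => Finset.sum_congr rfl fun j _ => ?_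
    congr 2
    funext l
    refine Fin.addCases (fun l => ?_) (fun l => ?_) l
    · rw [Fin.append_left, Function.update_apply, if_neg, Fin.append_left]
      intro h
      have := congrArg Fin.val h
      simp only [Fin.val_natAdd, Fin.val_castAdd] at this
      omega
    · rw [Fin.append_right, Function.update_apply, Function.update_apply]
      by_cases h : l = k
      · rw [if_pos h, if_pos (by rw [h])]
      · rw [if_neg h, if_neg (fun h' => h (Fin.natAdd_injective n m h')), Fin.append_right]

lemma aop_perm' (x : Matrix ι ι K) {n : ℕ} (σ : Equiv.Perm (Fin n)) (t : (Fin n → ι) → K) :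
    aop x (fun J => t (J ∘ σ)) = fun J => aop x t (J ∘ σ) := by
  funext J
  rw [aop_apply, aop_apply, ← Equiv.sum_comp σ]
  refine Finset.sum_congr rfl fun k _ => Finset.sum_congr rfl fun j _ => ?_
  congr 2
  funext l
  rw [Function.comp_apply, Function.update_apply, Function.update_apply]
  by_cases h : l = k
  · rw [if_pos h, if_pos (by rw [h])]
  · rw [if_neg h, if_neg (fun h' => h (σ.injective h'))]
    rfl

/-- The contraction of two tensors. -/
noncomputable def con (Q : Matrix ι ι K) {m n : ℕ} (s : (Fin m → ι) → K)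
    (t : (Fin (m + n) → ι) → K) : (Fin n → ι) → K :=
  fun J => ∑ I, ∑ I', s I * TP Q m I I' * t (Fin.append I' J)

lemma con_eq (Q : Matrix ι ι K) {m n : ℕ} (s : (Fin m → ι) → K) (t : (Fin (m + n) → ι) → K)
    (J : Fin n → ι) : con Q s t J = ∑ I, s I * tpow Q m (fun I' => t (Fin.append I' J)) I := by
  refine Finset.sum_congr rfl fun I _ => ?_
  rw [tpow_eq, Matrix.mulVec, dotProduct, Finset.mul_sum]
  exact Finset.sum_congr rfl fun I' _ => mul_assoc _ _ _

/-- **Contractions of annihilated tensors are annihilated.** -/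
theorem aop_con {Q x : Matrix ι ι K} (hx : Q * x = -xᵀ * Q) {m n : ℕ} {s : (Fin m → ι) → K}
    {t : (Fin (m + n) → ι) → K} (hs : aop x s = 0) (ht : aop x t = 0) :
    aop x (con Q s t) = 0 := by
  funext J
  rw [aop_apply]
  have h1 : ∀ I', (∑ k, ∑ j, x (J k) j * t (Fin.append I' (Function.update J k j))) =
      - aop x (fun I' => t (Fin.append I' J)) I' := by
    intro I'
    have h2 := aop_append x t I' J
    rw [ht, Pi.zero_apply] at h2
    linear_combination -h2
  have h2 : ∑ k, ∑ j, x (J k) j * con Q s t (Function.update J k j) =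
      ∑ I, s I * tpow Q m (fun I' => ∑ k, ∑ j, x (J k) j *
        t (Fin.append I' (Function.update J k j))) I := by
    simp only [con_eq]
    have h3 : (fun I' : Fin m → ι => ∑ k, ∑ j, x (J k) j *
        t (Fin.append I' (Function.update J k j))) = ∑ k, ∑ j, x (J k) j •
          fun I' : Fin m → ι => t (Fin.append I' (Function.update J k j)) := by
      funext I'
      simp only [Finset.sum_apply, Pi.smul_apply, smul_eq_mul]
    rw [h3]
    simp only [map_sum, map_smul, Finset.sum_apply, Pi.smul_apply, smul_eq_mul, Finset.mul_sum]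
    symm
    rw [Finset.sum_comm]
    refine Finset.sum_congr rfl fun k _ => ?_
    rw [Finset.sum_comm]
    refine Finset.sum_congr rfl fun j _ => Finset.sum_congr rfl fun I _ => ?_
    ring
  rw [h2]
  have h3 : (fun I' : Fin m → ι => ∑ k, ∑ j, x (J k) j *
        t (Fin.append I' (Function.update J k j))) =
      -(aop x fun I' => t (Fin.append I' J)) := by
    funext I'
    rw [h1]
    rfl
  rw [h3, map_neg]
  have h4 := tpow_aop (g := Q) (A := x) (B := -xᵀ) hx (n := m) fun I' => t (Fin.append I' J)
  rw [h4]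
  have h5 : aop (-xᵀ) (tpow Q m fun I' => t (Fin.append I' J)) =
      -aop xᵀ (tpow Q m fun I' => t (Fin.append I' J)) := by
    funext I
    have h6 := (aopL (tpow Q m fun I' => t (Fin.append I' J)) I).map_neg xᵀ
    exact h6
  rw [h5, neg_neg]
  rw [← aop_adj, hs]
  simp

end alg

section sys

variable {ι : Type} [Fintype ι] [DecidableEq ι] (V V' : PHS ι) {L : Type} [Field L] [Algebra ℚ L]

lemma con_bc (Q : Matrix ι ι ℚ) {m n : ℕ} (s : (Fin m → ι) → ℚ) (t : (Fin (m + n) → ι) → ℚ) :
    con (Q.map (algebraMap ℚ L)) (bc L s) (bc L t) = bc L (con Q s t) := by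
  funext J
  simp only [con, bc, map_sum, map_mul, TP_apply, map_prod, Matrix.map_apply]

/-- The matrix is skew for the form if it annihilates the tensor of the form. -/
lemma skew_of {Q : Matrix ι ι ℚ} (hQ : Q.det ≠ 0) {x : Matrix ι ι L}
    (h : aop x (bc L (PHS.Om Q)) = 0) :
    Q.map (algebraMap ℚ L) * x = -xᵀ * Q.map (algebraMap ℚ L) := by
  set q := Q.map (algebraMap ℚ L) with hq
  set r := Q⁻¹.map (algebraMap ℚ L) with hr
  have hqr : q * r = 1 := by
    rw [hq, hr, ← Matrix.map_mul, Matrix.mul_nonsing_inv _ (isUnit_iff_ne_zero.2 hQ)]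
    simp
  have hrq : r * q = 1 := by
    rw [hq, hr, ← Matrix.map_mul, Matrix.nonsing_inv_mul _ (isUnit_iff_ne_zero.2 hQ)]
    simp
  have h1 : x * r + r * xᵀ = 0 := by
    ext a b
    have h2 := congrFun h ![a, b]
    rw [aop_apply, Fin.sum_univ_two] at h2
    rw [Matrix.add_apply, Matrix.mul_apply, Matrix.mul_apply, Matrix.zero_apply]
    refine Eq.trans ?_ h2
    congr 1
    refine Finset.sum_congr rfl fun j _ => ?_
    rw [Matrix.transpose_apply, mul_comm]
    rfl
  have h2 : q * (x * r + r * xᵀ) * q = 0 := by rw [h1, Matrix.mul_zero, Matrix.zero_mul]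
  have h3 : q * (x * r + r * xᵀ) * q = q * x + xᵀ * q := by
    rw [Matrix.mul_add, Matrix.add_mul]
    congr 1
    · rw [Matrix.mul_assoc, Matrix.mul_assoc, hrq, Matrix.mul_one]
    · rw [← Matrix.mul_assoc, hqr, Matrix.one_mul]
  rw [h3] at h2
  rw [Matrix.neg_mul]
  exact eq_neg_of_add_eq_zero_left h2

/-- The matrices which annihilate the tensors of the second structure, in the coordinates of the
first structure. -/
def Mx (Φ : Matrix ι ι L) : Set (Matrix ι ι L) :=
  {x | ∃ B, Lie V'.T B ∧ x = Φ⁻¹ * B.map (algebraMap ℚ L) * Φ}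

lemma mem_iff {Φ : Matrix ι ι L} (hΦ : Φ.det ≠ 0) {n : ℕ} {t : (Fin n → ι) → ℚ} :
    tpow Φ n (bc L t) ∈ bcS L (V'.T n) ↔ ∀ x ∈ Mx V' Φ, aop x (bc L t) = 0 := by
  constructor
  · rintro h _ ⟨B, hB, rfl⟩
    apply tp_inj hΦ
    rw [← aop_conjk hΦ, aop_bcS (hB n) h, map_zero]
  · intro h
    refine mem_bc_of_Lie V' fun B hB => ?_
    rw [aop_conjk hΦ, h _ ⟨B, hB, rfl⟩, map_zero]

/-- **The Hodge tensors which are mapped to combinations of Hodge tensors** of the second structure
are a closed system. -/
noncomputable def spanSys (C' : PSys V.Q) (hC' : ∀ n, C'.S n = V.T n) {Φ : Matrix ι ι L}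
    (hΩ : ∀ x ∈ Mx V' Φ, aop x (bc L (PHS.Om V.Q)) = 0) : PSys V.Q where
  S n :=
    { carrier := {t | t ∈ V.T n ∧ ∀ x ∈ Mx V' Φ, aop x (bc L t) = 0}
      add_mem' := by
        rintro s t ⟨hs, hs'⟩ ⟨ht, ht'⟩
        refine ⟨Submodule.add_mem _ hs ht, fun x hx => ?_⟩
        have h1 : bc L (s + t) = bc L s + bc L t := by
          funext J
          exact map_add _ _ _
        rw [h1, aop_addL, hs' x hx, ht' x hx, add_zero]
      zero_mem' := by
        refine ⟨Submodule.zero_mem _, fun x _ => ?_⟩
        have h1 : bc L (0 : (Fin n → ι) → ℚ) = 0 := by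
          funext J
          exact map_zero _
        rw [h1, aop_zeroL]
      smul_mem' := by
        rintro c t ⟨ht, ht'⟩
        refine ⟨Submodule.smul_mem _ _ ht, fun x hx => ?_⟩
        have h1 : bc L (c • t) = algebraMap ℚ L c • bc L t := by
          funext J
          exact map_mul _ _ _
        rw [h1, aop_smulL, ht' x hx, smul_zero] }
  one := by
    refine ⟨by rw [← hC']; exact C'.one, fun x _ => ?_⟩
    funext J
    rw [aop_apply, Finset.univ_eq_empty, Finset.sum_empty]
    rfl
  mul := by
    rintro m n s t ⟨hs, hs'⟩ ⟨ht, ht'⟩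
    refine ⟨by rw [← hC'] at hs ht ⊢; exact C'.mul hs ht, fun x hx => ?_⟩
    rw [← TP.tmul_bc L, aop_tmul, hs' x hx, ht' x hx]
    funext J
    simp [tmul]
  perm := by
    rintro n σ t ⟨ht, ht'⟩
    refine ⟨by rw [← hC'] at ht ⊢; exact C'.perm σ ht, fun x hx => ?_⟩
    have h1 : bc L (fun J => t (J ∘ σ)) = fun J => bc L t (J ∘ σ) := rfl
    rw [h1, aop_perm', ht' x hx]
    rfl
  contr := by
    rintro m n s t ⟨hs, hs'⟩ ⟨ht, ht'⟩
    refine ⟨by rw [← hC'] at hs ht ⊢; exact C'.contr hs ht, fun x hx => ?_⟩
    have h1 := aop_con (skew_of PHS.det_Q (hΩ x hx)) (hs' x hx) (ht' x hx)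
    rwa [con_bc] at h1
  cas := ⟨PHS.Om_mem, hΩ⟩

end sys

end Pool.Agent.Q60.CJ
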